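import Pool.Agent.H85.FlatQ

set_option autoImplicit false

namespace Pool.Agent.Results.MP_4926dc_gt.NoNullField

open Set Filter Pool.Agent.H85.SemiRiemDefs Pool.Agent.H85.ParDefs Pool.Agent.H85.FlatQ
open scoped Manifold ContDiff Topology

def u : (ℤ√2)ˣ := ⟨⟨3, 2⟩, ⟨3, -2⟩, by decide, by decide⟩

def U (k : ℤ) : ℤ√2 := ((u ^ k : (ℤ√2)ˣ) : ℤ√2)

theorem U_add (k l : ℤ) : U (k + l) = U k * U l := by simp [U, zpow_add]
@[simp] theorem U_zero : U 0 = 1 := by simp [U]

noncomputable def i1 : ℤ√2 →+* ℝ := Zsqrtd.toReal (by norm_num)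
noncomputable def i2 : ℤ√2 →+* ℝ := i1.comp (starRingEnd _)

theorem i1_apply (a : ℤ√2) : i1 a = a.re + a.im * √2 := by simp [i1, Zsqrtd.toReal_apply]
theorem i2_apply (a : ℤ√2) : i2 a = a.re - a.im * √2 := by
  simp [i2, i1_apply, sub_eq_add_neg, starRingEnd_apply]

noncomputable def c : ℝ := Real.log (3 + 2 * √2)

theorem c_pos : 0 < c := Real.log_pos (by have := Real.sqrt_nonneg 2; linarith)

theorem exp_c : Real.exp c = 3 + 2 * √2 :=
  Real.exp_log (by have := Real.sqrt_nonneg 2; linarith)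

theorem exp_neg_c : Real.exp (-c) = 3 - 2 * √2 := by
  rw [Real.exp_neg, exp_c]
  have h : √2 * √2 = 2 := Real.mul_self_sqrt (by norm_num)
  refine inv_eq_of_mul_eq_one_right ?_
  nlinarith

theorem i_U (i : ℤ√2 →+* ℝ) (t : ℝ) (h : i u = Real.exp t) (k : ℤ) :
    i (U k) = Real.exp (k * t) := by
  have := map_zpow (Units.map i.toMonoidHom) u k
  have h2 := congrArg Units.val this
  rw [Units.val_zpow_eq_zpow_val] at h2
  have h3 : ((Units.map i.toMonoidHom u : ℝˣ) : ℝ) = Real.exp t := h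
  rw [h3] at h2
  rw [mul_comm, Real.exp_mul, Real.rpow_intCast]
  exact h2

theorem i1_U (k : ℤ) : i1 (U k) = Real.exp (k * c) :=
  i_U i1 c (by rw [exp_c, i1_apply]; simp [u]) k

theorem i2_U (k : ℤ) : i2 (U k) = Real.exp (k * -c) :=
  i_U i2 (-c) (by rw [exp_neg_c, i2_apply]; simp [u]) k

@[ext] structure G where
  a : ℤ√2
  b : ℤ√2
  k : ℤ

instance : Mul G := ⟨fun x y => ⟨x.a + U x.k * y.a, x.b + U x.k * y.b, x.k + y.k⟩⟩
instance : One G := ⟨⟨0, 0, 0⟩⟩
instance : Inv G := ⟨fun x => ⟨-(U (-x.k) * x.a), -(U (-x.k) * x.b), -x.k⟩⟩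

@[simp] theorem mul_a (x y : G) : (x * y).a = x.a + U x.k * y.a := rfl
@[simp] theorem mul_b (x y : G) : (x * y).b = x.b + U x.k * y.b := rfl
@[simp] theorem mul_k (x y : G) : (x * y).k = x.k + y.k := rfl
@[simp] theorem one_a : (1 : G).a = 0 := rfl
@[simp] theorem one_b : (1 : G).b = 0 := rfl
@[simp] theorem one_k : (1 : G).k = 0 := rfl
@[simp] theorem inv_a (x : G) : x⁻¹.a = -(U (-x.k) * x.a) := rfl
@[simp] theorem inv_b (x : G) : x⁻¹.b = -(U (-x.k) * x.b) := rfl
@[simp] theorem inv_k (x : G) : x⁻¹.k = -x.k := rfl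

instance : Group G := Group.ofLeftAxioms
  (fun x y z => G.ext (by simp [U_add]; ring) (by simp [U_add]; ring) (by simp [add_assoc]))
  (fun x => G.ext (by simp) (by simp) (by simp))
  (fun x => G.ext (by simp) (by simp) (by simp))

noncomputable def L (t : ℝ) : Euc 5 →L[ℝ] Euc 5 :=
  LinearMap.toContinuousLinearMap
    { toFun := fun w => !₂[Real.exp (t * c) * w 0, Real.exp (t * -c) * w 1,
        Real.exp (t * c) * w 2, Real.exp (t * -c) * w 3, w 4]
      map_add' := fun v w => by ext i; fin_cases i <;> simp <;> ring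
      map_smul' := fun r w => by ext i; fin_cases i <;> simp <;> ring }

@[simp] theorem L0 (t : ℝ) (w : Euc 5) : L t w 0 = Real.exp (t * c) * w 0 := rfl
@[simp] theorem L1 (t : ℝ) (w : Euc 5) : L t w 1 = Real.exp (t * -c) * w 1 := rfl
@[simp] theorem L2 (t : ℝ) (w : Euc 5) : L t w 2 = Real.exp (t * c) * w 2 := rfl
@[simp] theorem L3 (t : ℝ) (w : Euc 5) : L t w 3 = Real.exp (t * -c) * w 3 := rfl
@[simp] theorem L4 (t : ℝ) (w : Euc 5) : L t w 4 = w 4 := rfl

noncomputable def tr (g : G) : Euc 5 := !₂[i1 g.a, i2 g.a, i1 g.b, i2 g.b, g.k]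

noncomputable instance : SMul G (Euc 5) := ⟨fun g p => L g.k p + tr g⟩

@[simp] theorem s0 (g : G) (p : Euc 5) : (g • p) 0 = Real.exp (g.k * c) * p 0 + i1 g.a := rfl
@[simp] theorem s1 (g : G) (p : Euc 5) : (g • p) 1 = Real.exp (g.k * -c) * p 1 + i2 g.a := rfl
@[simp] theorem s2 (g : G) (p : Euc 5) : (g • p) 2 = Real.exp (g.k * c) * p 2 + i1 g.b := rfl
@[simp] theorem s3 (g : G) (p : Euc 5) : (g • p) 3 = Real.exp (g.k * -c) * p 3 + i2 g.b := rfl
@[simp] theorem s4 (g : G) (p : Euc 5) : (g • p) 4 = p 4 + g.k := rfl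

theorem ext5 {p q : Euc 5} (h0 : p 0 = q 0) (h1 : p 1 = q 1) (h2 : p 2 = q 2) (h3 : p 3 = q 3)
    (h4 : p 4 = q 4) : p = q := by
  ext i; fin_cases i
  exacts [h0, h1, h2, h3, h4]

noncomputable instance act : MulAction G (Euc 5) where
  one_smul p := by apply ext5 <;> simp
  mul_smul g h p := by
    apply ext5 <;> simp only [s0, s1, s2, s3, s4, mul_a, mul_b, mul_k, map_add, map_mul, i1_U,
      i2_U, Int.cast_add, add_mul, Real.exp_add] <;> ring

noncomputable def par (z : Euc 5 × Euc 5) : Fin 5 → ℝ :=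
  let t := z.2 4 - z.1 4
  let a1 := z.2 0 - Real.exp (t * c) * z.1 0
  let a2 := z.2 1 - Real.exp (t * -c) * z.1 1
  let b1 := z.2 2 - Real.exp (t * c) * z.1 2
  let b2 := z.2 3 - Real.exp (t * -c) * z.1 3
  ![(a1 + a2) / 2, (a1 - a2) / (2 * √2), (b1 + b2) / 2, (b1 - b2) / (2 * √2), t]

def ints (g : G) : Fin 5 → ℤ := ![g.a.re, g.a.im, g.b.re, g.b.im, g.k]

theorem ints_inj : Function.Injective ints := by
  intro g h k
  have k0 := congrFun k 0
  have k1 := congrFun k 1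
  have k2 := congrFun k 2
  have k3 := congrFun k 3
  have k4 := congrFun k 4
  exact G.ext (Zsqrtd.ext k0 k1) (Zsqrtd.ext k2 k3) k4

theorem par_smul (g : G) (p : Euc 5) : par (p, g • p) = fun i => (ints g i : ℝ) := by
  have h : √2 ≠ 0 := by positivity
  funext i
  fin_cases i <;> simp [par, ints, i1_apply, i2_apply] <;> field_simp <;> ring

theorem free : IsCancelSMul G (Euc 5) where
  right_cancel' g h p hp := by
    have := par_smul g p
    rw [hp, par_smul] at this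
    exact ints_inj (funext fun i => by exact_mod_cast (congrFun this i).symm)

theorem pd : ProperlyDiscontinuousSMul G (Euc 5) where
  finite_disjoint_inter_image {K K'} hK hK' := by
    have hc : Continuous par := by
      refine continuous_pi fun i => ?_
      fin_cases i <;> simp only [par] <;> simp <;> fun_prop
    have hcl : Topology.IsClosedEmbedding (fun (z : Fin 5 → ℤ) i => (z i : ℝ)) :=
      Topology.IsClosedEmbedding.piMap fun _ => Int.isClosedEmbedding_coe_real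
    have hf := (hcl.isCompact_preimage ((hK.prod hK').image hc)).finite_of_discrete
    refine (hf.preimage ints_inj.injOn).subset ?_
    rintro g ⟨_, ⟨p, hp, rfl⟩, hq⟩
    exact ⟨(p, g • p), ⟨hp, hq⟩, par_smul g p⟩

noncomputable instance : Aff G 5 where
  toMulAction := act
  L g := L g.k
  tr := tr
  smul_def _ _ := rfl
  L_mul g h v := by
    apply ext5 <;> simp only [L0, L1, L2, L3, L4, mul_k, Int.cast_add, add_mul, Real.exp_add] <;>
      ring
  L_one v := by apply ext5 <;> simp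
  free := free
  pd := pd

theorem box (x y : ℝ) : ∃ a : ℤ√2, (x + i1 a) ^ 2 ≤ 9 ∧ (y + i2 a) ^ 2 ≤ 9 := by
  have h2 : √2 * √2 = 2 := Real.mul_self_sqrt (by norm_num)
  have h0 : 0 < √2 := by positivity
  have h3 : √2 < 2 := by nlinarith
  obtain ⟨α, hα⟩ : ∃ α, α = (x + y) / 2 := ⟨_, rfl⟩
  obtain ⟨β, hβ⟩ : ∃ β, β = (x - y) / (2 * √2) := ⟨_, rfl⟩
  have hx : x = α + β * √2 := by rw [hα, hβ]; field_simp; ring
  have hy : y = α - β * √2 := by rw [hα, hβ]; field_simp; ring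
  refine ⟨⟨-⌊α⌋, -⌊β⌋⟩, ?_⟩
  rw [i1_apply, i2_apply, hx, hy]
  have a1 := Int.floor_le α
  have a2 := Int.lt_floor_add_one α
  have b1 := Int.floor_le β
  have b2 := Int.lt_floor_add_one β
  have e1 : 0 ≤ (β - ⌊β⌋) * √2 := by positivity
  have e2 : (β - ⌊β⌋) * √2 ≤ 2 := by nlinarith
  push_cast
  have k : ∀ z : ℝ, -3 ≤ z → z ≤ 3 → z ^ 2 ≤ 9 := fun z h h' => by nlinarith
  exact ⟨k _ (by nlinarith) (by nlinarith), k _ (by nlinarith) (by nlinarith)⟩

instance : CompactSpace (N G) := by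
  refine ⟨?_⟩
  have : pr G '' Metric.closedBall 0 7 = univ := by
    refine eq_univ_of_forall fun x => ?_
    let p : Euc 5 := Quotient.out x
    let k : ℤ := -⌊p 4⌋
    obtain ⟨a, a1, a2⟩ := box (Real.exp (k * c) * p 0) (Real.exp (k * -c) * p 1)
    obtain ⟨b, b1, b2⟩ := box (Real.exp (k * c) * p 2) (Real.exp (k * -c) * p 3)
    refine ⟨(⟨a, b, k⟩ : G) • p, ?_, (pr_smul _ _).trans (pr_out x)⟩
    have h4 : (p 4 + k) ^ 2 ≤ 1 := by
      have h1 := Int.floor_le (p 4)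
      have h2 := Int.lt_floor_add_one (p 4)
      simp only [k]
      push_cast
      nlinarith
    rw [mem_closedBall_zero_iff, EuclideanSpace.norm_eq]
    refine Real.sqrt_le_iff.2 ⟨by norm_num, ?_⟩
    simp only [Fin.sum_univ_five, Real.norm_eq_abs, sq_abs]
    have e0 := s0 ⟨a, b, k⟩ p
    have e1 := s1 ⟨a, b, k⟩ p
    have e2 := s2 ⟨a, b, k⟩ p
    have e3 := s3 ⟨a, b, k⟩ p
    have e4 := s4 ⟨a, b, k⟩ p
    erw [e0, e1, e2, e3, e4]
    linarith
  rw [← this]
  exact (isCompact_closedBall _ _).image (pr_loc G).continuous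

noncomputable def pp (i j : Fin 5) : Euc 5 →L[ℝ] Euc 5 →L[ℝ] ℝ :=
  (EuclideanSpace.proj i).smulRight (EuclideanSpace.proj j)

noncomputable def B : Euc 5 →L[ℝ] Euc 5 →L[ℝ] ℝ := pp 0 3 + pp 3 0 + pp 1 2 + pp 2 1 + pp 4 4

@[simp] theorem B_apply (v w : Euc 5) :
    B v w = v 0 * w 3 + v 3 * w 0 + v 1 * w 2 + v 2 * w 1 + v 4 * w 4 := by
  simp [B, pp]

theorem B_L (g : G) (v w : Euc 5) : B (Aff.L g v) (Aff.L g w) = B v w := by
  show B (L g.k v) (L g.k w) = B v w
  have h : Real.exp (g.k * c) * Real.exp (g.k * -c) = 1 := by rw [← Real.exp_add]; simp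
  simp only [B_apply, L0, L1, L2, L3, L4]
  linear_combination (v 0 * w 3 + v 3 * w 0 + v 1 * w 2 + v 2 * w 1) * h

theorem B_nondeg (v : Euc 5) (h : ∀ w, B v w = 0) : v = 0 := by
  have h0 := h !₂[1, 0, 0, 0, 0]
  have h1 := h !₂[0, 1, 0, 0, 0]
  have h2 := h !₂[0, 0, 1, 0, 0]
  have h3 := h !₂[0, 0, 0, 1, 0]
  have h4 := h !₂[0, 0, 0, 0, 1]
  simp at h0 h1 h2 h3 h4
  exact ext5 h3 h2 h1 h0 h4

noncomputable def A0 : Euc 5 →ₗ[ℝ] Euc 5 where
  toFun w := !₂[0, 0, w 0, w 1, 0]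
  map_add' v w := by ext i; fin_cases i <;> simp
  map_smul' r w := by ext i; fin_cases i <;> simp

theorem A0_apply (w : Euc 5) : A0 w = !₂[0, 0, w 0, w 1, 0] := rfl

theorem metric : IsIndefiniteMetric (E := Euc 5) (M := N G) (fun _ v w => B v w) where
  lin x v := ⟨(B v).map_add, (B v).map_smul⟩
  symm x v w := by
    show B v w = B w v
    simp; ring
  nondeg x v h := B_nondeg v h
  pos x := ⟨(!₂[0, 0, 0, 0, 1] : Euc 5), by
    show 0 < B !₂[0, 0, 0, 0, 1] !₂[0, 0, 0, 0, 1]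
    simp⟩
  neg x := ⟨(!₂[1, 0, 0, -1, 0] : Euc 5), by
    show B !₂[1, 0, 0, -1, 0] !₂[1, 0, 0, -1, 0] < 0
    simp⟩
  smooth e he v w := by rw [locBilin_eq B B_L he]; exact contDiffOn_const

theorem fixed {t : ℝ} (ht : t ≠ 0) {w : Euc 5} (h : L t w = w) (h0 : B w w = 0) : w = 0 := by
  have e1 : Real.exp (t * c) ≠ 1 := by
    rw [Ne, Real.exp_eq_one_iff]; exact mul_ne_zero ht c_pos.ne'
  have e2 : Real.exp (t * -c) ≠ 1 := by
    rw [Ne, Real.exp_eq_one_iff]; exact mul_ne_zero ht (neg_ne_zero.mpr c_pos.ne')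
  have k : ∀ {e x : ℝ}, e ≠ 1 → e * x = x → x = 0 := fun {e x} he hx => by
    have : (e - 1) * x = 0 := by linarith
    exact (mul_eq_zero.mp this).resolve_left (sub_ne_zero.mpr he)
  have w0 : w 0 = 0 := k e1 (congrArg (fun v : Euc 5 => v 0) h)
  have w1 : w 1 = 0 := k e2 (congrArg (fun v : Euc 5 => v 1) h)
  have w2 : w 2 = 0 := k e1 (congrArg (fun v : Euc 5 => v 2) h)
  have w3 : w 3 = 0 := k e2 (congrArg (fun v : Euc 5 => v 3) h)
  have w4 : w 4 = 0 := by simpa [w0, w1, w2, w3] using h0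
  exact ext5 w0 w1 w2 w3 w4

section
variable {E : Type} [NormedAddCommGroup E] [NormedSpace ℝ E]
  {M : Type} [TopologicalSpace M] [ChartedSpace E M]

/-- `A x` to the power `k` vanishes for all `x`. -/
def PowZero (A : ∀ x : M, Tx E x →ₗ[ℝ] Tx E x) (k : ℕ) : Prop := ∀ x, A x ^ k = 0

/-- `g` carries a nonzero, self-adjoint, parallel, nilpotent `(1,1)`-tensor field. -/
def HasNilpotent (g : Bilin E M) : Prop :=
  ∃ A : ∀ x : M, Tx E x →ₗ[ℝ] Tx E x, (∃ x v, A x v ≠ 0) ∧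
    (∀ x v w, g x (A x v) w = g x v (A x w)) ∧ IsParallelEnd g A ∧ ∃ k, 1 ≤ k ∧ PowZero A k

/-- On every covering with finite fibres, every parallel null vector field is zero. -/
def NoNull (g : Bilin E M) : Prop :=
  ∀ (M' : Type) [TopologicalSpace M'] (π : M' → M), IsCoveringMap π →
    (∀ x, (π ⁻¹' {x}).Finite) → ∀ V : ∀ x : M', Tx E (π x), IsParallelVec g π V →
    (∀ x, g (π x) (V x) (V x) = 0) → ∀ x, V x = 0

end

/-- A closed connected pseudo-Riemannian manifold with a nonzero self-adjoint parallel nilpotent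
endomorphism field such that no finite covering carries a nonzero parallel null vector field. -/
theorem result : ∃ (n : ℕ) (M : Type) (_ : TopologicalSpace M) (_ : T2Space M)
    (_ : CompactSpace M) (_ : ConnectedSpace M) (_ : ChartedSpace (Euc n) M)
    (_ : IsManifold 𝓘(ℝ, Euc n) ∞ M) (g : Bilin (Euc n) M),
    IsIndefiniteMetric g ∧ HasNilpotent g ∧ NoNull g := by
  refine ⟨5, N G, inferInstance, inferInstance, inferInstance, inferInstance, inferInstance,
    inferInstance, fun _ v w => B v w, metric, ⟨fun _ => A0,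
    ⟨pr G 0, (!₂[1, 0, 0, 0, 0] : Euc 5), fun h => ?_⟩, ?_,
    parallel_end B B_L B_nondeg A0 ?_, 2, by norm_num, fun _ => ?_⟩, ?_⟩
  · have := congrArg (fun v : Euc 5 => v 2)
      (show A0 !₂[1, 0, 0, 0, 0] = 0 from h)
    simp [A0_apply] at this
  · intro x v w
    show B (A0 v) w = B v (A0 w)
    simp [A0_apply]; ring
  · intro g v
    show A0 (L g.k v) = L g.k (A0 v)
    apply ext5 <;> simp [A0_apply]
  · show A0 ^ 2 = 0
    ext1 v
    show A0 (A0 v) = 0
    apply ext5 <;> simp [A0_apply]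
  · intro M' _ π hπ hfin V hV hnull x
    obtain ⟨f, ⟨hf0, hf⟩, -⟩ := hπ.existsUnique_continuousMap_lifts
      ⟨pr G, (pr_loc G).continuous⟩ (Quotient.out (π x)) x (pr_out _).symm
    have hπf : ∀ y, π (f y) = pr G y := fun y => congrFun hf y
    obtain ⟨w, hw⟩ := parallel_const B B_L B_nondeg π V hV f f.continuous hπf
    set p : Euc 5 := Quotient.out (π x)
    have hmem : ∀ k : ℤ, f ((⟨0, 0, k⟩ : G) • p) ∈ π ⁻¹' {pr G p} := fun k => by
      rw [mem_preimage, hπf, pr_smul]; rfl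
    obtain ⟨k, -, l, -, hkl, he⟩ := Set.Infinite.exists_ne_map_eq_of_mapsTo
      (f := fun k : ℤ => f ((⟨0, 0, k⟩ : G) • p)) Set.infinite_univ (fun k _ => hmem k)
      (hfin (pr G p))
    let gk : G := ⟨0, 0, k⟩
    let gl : G := ⟨0, 0, l⟩
    have h1 : D G (gk • p) w = D G (gl • p) w := by
      rw [hw, hw]
      exact congrArg (fun z => (V z : Euc 5)) he
    have h2 : ∀ g : G, D G (g • p) w = D G p (Aff.L g⁻¹ w) := fun g => by
      rw [← D_smul g p, ← Aff.L_mul, mul_inv_cancel, Aff.L_one]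
    rw [h2, h2] at h1
    have h3 := congrArg (Aff.L gk) (D_inj p h1)
    rw [← Aff.L_mul, ← Aff.L_mul, mul_inv_cancel, Aff.L_one] at h3
    have h4 : B w w = 0 := by
      obtain ⟨g, hg⟩ := D_spec (Γ := G) p
      have := hnull (f p)
      rw [← B_L g, ← hg, hw]
      exact this
    have h5 : w = 0 := fixed (t := ((gk * gl⁻¹).k : ℝ)) (by
      simp only [mul_k, inv_k, gk, gl]
      exact_mod_cast sub_ne_zero.mpr hkl) h3.symm h4
    have h6 := hw p
    rw [h5, map_zero, hf0] at h6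
    exact h6.symm

end Pool.Agent.Results.MP_4926dc_gt.NoNullField
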